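import Pool.Agent.W787.PS.StmA

open MeasureTheory Set Metric Filter Topology

noncomputable section

namespace Pool.Agent.W787.PS

namespace SelAux

lemma integrable_of_good {f : ℂ → ℝ} (hc : Continuous f) (hs : HasCompactSupport f) :
    Integrable f := hc.integrable_of_hasCompactSupport hs

lemma ms_le_of_bound {f : ℂ → ℝ} (hc : Continuous f) (hs : HasCompactSupport f)
    {B : ℝ} (hB : ∀ x, f x ≤ B) (y : ℂ) {s : ℝ} (hs0 : 0 ≤ s) :
    ms f y s ≤ B * (Real.pi * s ^ 2) := by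
  have hI := integrable_of_good hc hs
  have hfin : volume (ball y s) ≠ ⊤ := measure_ball_lt_top.ne
  calc ms f y s ≤ ∫ x in ball y s, B := by
        unfold ms
        apply setIntegral_mono_on hI.integrableOn (integrableOn_const hfin) measurableSet_ball
        intro x _; exact hB x
    _ = B * (Real.pi * s ^ 2) := by
        rw [setIntegral_const]
        simp only [Measure.real, Complex.volume_ball, smul_eq_mul]
        rw [ENNReal.toReal_mul, ENNReal.toReal_pow, ENNReal.toReal_ofReal hs0]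
        simp
        ring

/-- the set of admissible scales -/
def Sc (R μ₀ : ℝ) (f : ℂ → ℝ) : Set ℕ :=
  {k | ∃ y : ℂ, ‖y‖ ≤ R / 2 ∧ μ₀ ≤ ms f y ((1 / 2 : ℝ) ^ k)}

lemma bdd_Sc {R μ₀ : ℝ} (hμ : 0 < μ₀) {f : ℂ → ℝ} (hc : Continuous f)
    (hs : HasCompactSupport f) : BddAbove (Sc R μ₀ f) := by
  obtain ⟨B, hB⟩ := (hs.exists_bound_of_continuous hc)
  have hB' : ∀ x, f x ≤ B := fun x => (le_abs_self _).trans (hB x)
  have hlim : Tendsto (fun k : ℕ => B * (Real.pi * ((1 / 2 : ℝ) ^ k) ^ 2)) atTop (𝓝 0) := by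
    have h1 : Tendsto (fun k : ℕ => (1 / 2 : ℝ) ^ k) atTop (𝓝 0) :=
      tendsto_pow_atTop_nhds_zero_of_lt_one (by norm_num) (by norm_num)
    have h2 := ((h1.pow 2).const_mul Real.pi).const_mul B
    simpa using h2
  obtain ⟨N, hN⟩ := eventually_atTop.1 (hlim.eventually (gt_mem_nhds hμ))
  refine ⟨N, ?_⟩
  rintro k ⟨y, _, hk⟩
  by_contra hcon
  push Not at hcon
  have h1 := hN k hcon.le
  have h2 := ms_le_of_bound hc hs hB' y (s := (1 / 2 : ℝ) ^ k) (by positivity)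
  linarith

open Classical in
/-- chosen centre -/
def ctr (R μ₀ : ℝ) (f : ℂ → ℝ) : ℂ :=
  if h : (Sc R μ₀ f).Nonempty ∧ BddAbove (Sc R μ₀ f) then
    (Nat.sSup_mem h.1 h.2).choose else 0

open Classical in
/-- chosen radius -/
def rad (R μ₀ : ℝ) (f : ℂ → ℝ) : ℝ :=
  if (Sc R μ₀ f).Nonempty ∧ BddAbove (Sc R μ₀ f) then (1 / 2 : ℝ) ^ (sSup (Sc R μ₀ f)) else 1

lemma rad_pos (R μ₀ : ℝ) (f : ℂ → ℝ) : 0 < rad R μ₀ f := by
  unfold rad; split_ifs <;> positivity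

lemma ctr_spec {R μ₀ : ℝ} {f : ℂ → ℝ} (h : (Sc R μ₀ f).Nonempty ∧ BddAbove (Sc R μ₀ f)) :
    ‖ctr R μ₀ f‖ ≤ R / 2 ∧ μ₀ ≤ ms f (ctr R μ₀ f) (rad R μ₀ f) := by
  have h1 := (Nat.sSup_mem h.1 h.2).choose_spec
  unfold ctr rad
  rw [dif_pos h, if_pos h]
  exact h1

lemma rad_max {R μ₀ : ℝ} {f : ℂ → ℝ} (h : (Sc R μ₀ f).Nonempty ∧ BddAbove (Sc R μ₀ f))
    (y : ℂ) (hy : ‖y‖ ≤ R / 2) : ms f y (rad R μ₀ f / 2) < μ₀ := by
  by_contra hcon
  push Not at hcon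
  unfold rad at hcon
  rw [if_pos h] at hcon
  have hmem : sSup (Sc R μ₀ f) + 1 ∈ Sc R μ₀ f := by
    refine ⟨y, hy, ?_⟩
    rw [pow_succ]
    have e : (1 / 2 : ℝ) ^ sSup (Sc R μ₀ f) * (1 / 2) = (1 / 2 : ℝ) ^ sSup (Sc R μ₀ f) / 2 := by
      ring
    rw [e]
    exact hcon
  have := le_csSup h.2 hmem
  omega

lemma rad_le {R μ₀ : ℝ} {f : ℂ → ℝ} (h : BddAbove (Sc R μ₀ f)) {k : ℕ} (hk : k ∈ Sc R μ₀ f) :
    rad R μ₀ f ≤ (1 / 2 : ℝ) ^ k := by
  unfold rad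
  rw [if_pos ⟨⟨k, hk⟩, h⟩]
  exact pow_le_pow_of_le_one (by norm_num) (by norm_num) (le_csSup h hk)

lemma ms_disj {f : ℂ → ℝ} (hc : Continuous f) (hs : HasCompactSupport f) (h0 : ∀ x, 0 ≤ f x)
    {x : ℂ} {r s t : ℝ} (h1 : s + r ≤ ‖x‖) (h2 : ‖x‖ + r ≤ t) (h3 : s ≤ t) :
    ms f x r + ms f 0 s ≤ ms f 0 t := by
  have hI := integrable_of_good hc hs
  have hd : Disjoint (ball x r) (ball (0 : ℂ) s) := by
    apply ball_disjoint_ball
    rw [dist_zero_right]; linarith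
  unfold ms
  rw [← setIntegral_union hd measurableSet_ball hI.integrableOn hI.integrableOn]
  apply setIntegral_mono_set hI.integrableOn
  · exact Eventually.of_forall fun z => h0 z
  · apply LE.le.eventuallyLE
    apply union_subset
    · apply ball_subset_ball'
      rw [dist_zero_right]; linarith
    · exact ball_subset_ball h3

end SelAux

open SelAux in
theorem sel : S_SEL := by
  intro 𝒰 R ρ hR hgood m μ₀ hμ₀ hμm hm
  -- small dyadic scales
  have hk : ∀ ε : ℝ, 0 < ε → ∃ k : ℕ, (1 / 2 : ℝ) ^ k < ε := fun ε hε =>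
    exists_pow_lt_of_lt_one hε (by norm_num)
  have hP : ∀ k : ℕ, (1 / 2 : ℝ) ^ k < R → ∀ᶠ n in (𝒰 : Filter ℕ), k ∈ Sc R μ₀ (ρ n) := by
    intro k hkR
    have h1 := (hm ((1 / 2 : ℝ) ^ k) (by positivity) hkR).eventually (lt_mem_nhds hμm)
    filter_upwards [h1] with n hn
    refine ⟨0, ?_, hn.le⟩
    rw [norm_zero]; positivity
  have hbdd : ∀ᶠ n in (𝒰 : Filter ℕ), BddAbove (Sc R μ₀ (ρ n)) := by
    filter_upwards [hgood] with n hn
    exact bdd_Sc hμ₀ hn.1 hn.2.1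
  have hg' : ∀ᶠ n in (𝒰 : Filter ℕ), (Sc R μ₀ (ρ n)).Nonempty ∧ BddAbove (Sc R μ₀ (ρ n)) := by
    obtain ⟨k, hkk⟩ := hk R hR
    filter_upwards [hP k hkk, hbdd] with n h1 h2
    exact ⟨⟨k, h1⟩, h2⟩
  have hsmall : ∀ ε : ℝ, 0 < ε → ∀ᶠ n in (𝒰 : Filter ℕ), rad R μ₀ (ρ n) < ε := by
    intro ε hε
    obtain ⟨k, hkk⟩ := hk (min ε R) (lt_min hε hR)
    filter_upwards [hP k (hkk.trans_le (min_le_right _ _)), hbdd] with n h1 h2
    exact (rad_le h2 h1).trans_lt (hkk.trans_le (min_le_left _ _))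
  refine ⟨fun n => ctr R μ₀ (ρ n), fun n => rad R μ₀ (ρ n), fun n => rad_pos _ _ _, ?_, ?_, ?_, ?_⟩
  · rw [Metric.tendsto_nhds]
    intro ε hε
    have hs0 : 0 < min (ε / 2) (R / 2) := lt_min (by linarith) (by linarith)
    have hsR : min (ε / 2) (R / 2) ≤ R / 2 := min_le_right _ _
    have hsε : min (ε / 2) (R / 2) ≤ ε / 2 := min_le_left _ _
    have hT : Tendsto (fun n => ms (ρ n) 0 (3 * R / 4) - ms (ρ n) 0 (min (ε / 2) (R / 2))) 𝒰
        (𝓝 0) := by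
      have := (hm (3 * R / 4) (by linarith) (by linarith)).sub
        (hm (min (ε / 2) (R / 2)) hs0 (by linarith))
      simpa using this
    filter_upwards [hT.eventually (gt_mem_nhds hμ₀), hgood, hg', hsmall (ε / 2) (by linarith),
      hsmall (R / 4) (by linarith)] with n h1 h2 h3 h4 h5
    rw [dist_zero_right]
    by_contra hcon
    push Not at hcon
    have h6 := ctr_spec h3
    have h7 := ms_disj h2.1 h2.2.1 h2.2.2 (x := ctr R μ₀ (ρ n)) (r := rad R μ₀ (ρ n))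
      (s := min (ε / 2) (R / 2)) (t := 3 * R / 4) (by linarith) (by linarith [h6.1]) (by linarith)
    linarith [h6.2]
  · rw [Metric.tendsto_nhds]
    intro ε hε
    filter_upwards [hsmall ε hε] with n hn
    rw [dist_zero_right, Real.norm_eq_abs, abs_of_pos (rad_pos _ _ _)]
    exact hn
  · filter_upwards [hg'] with n hn
    exact (ctr_spec hn).2
  · filter_upwards [hg'] with n hn y hy
    exact rad_max hn y hy

end Pool.Agent.W787.PS
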